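import Pool.Agent.Helper79.GT.St6

/-!
# Project GT (MP_c2d095_lc), module CRM: placements in the window as numbers
-/

set_option autoImplicit false

namespace Pool.Agent.Helper81.GT

open Pool.Agent.Helper79.GT Pool.Agent.Helper79.GS Pool.Agent.Helper19.SK Pool.Agent.Helper73.DC
open Finset
open scoped Classical

private theorem bn_t : bn true = 1 := by simp [bn]

private theorem bn_f : bn false = 0 := by simp [bn]

private theorem bn_inj {c c' : Bool} (h : bn c = bn c') : c = c' := by
  cases c <;> cases c' <;> simp_all [bn]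

private theorem bn_not (c : Bool) : 1 - bn c = bn (!c) := by
  cases c <;> simp [bn]

private theorem o1_bn (c : Bool) : o1 (bn c) = bn c := by
  cases c <;> simp [bn, o1]

theorem hCRM (hCOD : StCOD) (hPLY : StPLY) (hNUV : StNUV) (hVLV : StVLV) :
    Pool.Agent.Helper79.GT.StCRM := by
  intro sk tc e Sm D n w d₀ hn hnV hN hPP hsz hSm
  obtain ⟨cod1, cod2, cod3, -⟩ := hCOD n
  obtain ⟨M, hM⟩ : ∃ M, M = 2 * BB w + 1 := ⟨_, rfl⟩
  obtain ⟨K, hK⟩ : ∃ K, K = 3 ^ (n * n) := ⟨_, rfl⟩
  obtain ⟨N, hNd⟩ : ∃ N, N = NN e w := ⟨_, rfl⟩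
  have hK0 : 0 < K := by rw [hK]; positivity
  have hMM : MM w = M := by rw [hM]; rfl
  have hTT : TT N w = K * M := by
    unfold TT
    rw [hNd, hPP, hMM, hK]
  rw [← hNd] at hN hPP
  rw [← hK] at hN hPP
  rw [← hM]
  have hc : ∀ P : Pos (Fin n × Fin n), codeB P < K := fun P => by
    rw [hK]
    exact (cod1 P).1
  have hlt : ∀ a : Pos (Fin n × Fin n) × Fin M, codeB a.1 + K * a.2.val < K * M := by
    intro a
    have h1 := hc a.1
    have h2 : a.2.val + 1 ≤ M := a.2.isLt
    calc codeB a.1 + K * a.2.val < K + K * a.2.val := by omega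
      _ = K * (a.2.val + 1) := by ring
      _ ≤ K * M := Nat.mul_le_mul_left _ h2
  have hmod : ∀ a : Pos (Fin n × Fin n) × Fin M, (codeB a.1 + K * a.2.val) % K = codeB a.1 := by
    intro a
    rw [Nat.add_mul_mod_self_left, Nat.mod_eq_of_lt (hc a.1)]
  have hdiv : ∀ a : Pos (Fin n × Fin n) × Fin M, (codeB a.1 + K * a.2.val) / K = a.2.val := by
    intro a
    rw [Nat.add_mul_div_left _ _ hK0, Nat.div_eq_of_lt (hc a.1), zero_add]
  have hw1 : ∀ a : Pos (Fin n × Fin n) × Fin M,
      wcode (n := n) M (Sum.inl a) = codeB a.1 + K * a.2.val := by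
    intro a
    rw [hK]
    rfl
  have hw2 : ∀ c : Bool, wcode (n := n) M (Sum.inr c) = K * M + bn c := by
    intro c
    rw [hK]
    rfl
  have hmv : ∀ (c : Bool) (P Q : Pos (Fin n × Fin n)), mvN N n (bn c) (codeB P) (codeB Q) ↔
      (goG (grid n) tc).mv c P Q := fun c P Q => hPLY N n (by rw [← hK]; exact hN) c P Q
  have hdc : ∀ (i c : Bool) (P Q : Pos (Fin n × Fin n)),
      dcN Sm N w i (bn c) (codeB P) (codeB Q) ↔ dcl D w i c P Q := by
    intro i c P Q
    obtain ⟨h1, h2⟩ := hVLV n w hnV c P Q
    unfold dcN dcl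
    rw [h2, hnV, ← h1, hNd]
    exact hSm i w _ (by rw [h1]; exact hsz)
  have hun : ∀ (c : Bool) (P Q : Pos (Fin n × Fin n)),
      unN Sm N w (bn c) (codeB P) (codeB Q) ↔ und (goG (grid n) tc) (dcl D w) c P Q := by
    intro c P Q
    unfold unN und
    rw [hnV, hmv, bn_not, hmv, hdc, hdc, Bool.forall_bool]
  have hnum : ∀ (c : Bool) (P : Pos (Fin n × Fin n)), numN n (bn c) (codeB P) = num P c :=
    fun c P => (hNUV N n (by rw [← hK]; exact hN) c P).1
  have hAX : ∀ c u x, (AX (goX sk tc e Sm) w).mv c u x ↔ mvV Sm N w (bn c) u x := by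
    intro c u x
    rw [hNd]
    rfl
  refine ⟨?_, ?_, ?_⟩
  · -- injective
    intro x y hxy
    rcases x with a | c <;> rcases y with a' | c'
    · rw [hw1, hw1] at hxy
      have h1 : codeB a.1 = codeB a'.1 := by rw [← hmod a, hxy, hmod a']
      have h2 : a.2.val = a'.2.val := by rw [← hdiv a, hxy, hdiv a']
      have h3 := cod2 _ _ h1
      congr 1
      exact Prod.ext h3 (Fin.ext h2)
    · rw [hw1, hw2] at hxy
      have := hlt a
      omega
    · rw [hw1, hw2] at hxy
      have := hlt a'
      omega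
    · rw [hw2, hw2] at hxy
      congr 1
      exact bn_inj (by omega)
  · intro c x y
    rw [hAX]
    rcases x with a | b
    · rcases y with a' | c'
      · rw [hw1, hw1]
        unfold mvV
        rw [hPP, hTT, hmod, hmod, hdiv, hdiv, hun, hnV, o1_bn]
        have h1 := hlt a
        have h2 := hlt a'
        have h3 := hnum false a.1
        have h4 := hnum false a'.1
        have h5 := hnum true a.1
        have h6 := hnum true a'.1
        rw [bn_f] at h3 h4
        rw [bn_t] at h5 h6
        rw [h3, h4, h5, h6]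
        show (und (goG (grid n) tc) (dcl D w) c a.1 a'.1 ∧
          (a'.2.val : ℤ) = a.2.val + capd c a.1 a'.1) ↔ _
        constructor
        · rintro ⟨h7, h8⟩
          refine Or.inl ⟨h1, h2, h7, ?_⟩
          unfold capd at h8
          cases c
          · rw [bn_f]
            simp only [if_true, reduceCtorEq, if_false] at h8
            omega
          · rw [bn_t]
            simp only [if_true, reduceCtorEq, if_false] at h8
            omega
        · rintro (⟨-, -, h7, h8⟩ | ⟨-, h7, -⟩)
          · refine ⟨h7, ?_⟩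
            unfold capd
            cases c
            · rw [bn_f] at h8
              simp only [if_true, reduceCtorEq, if_false]
              omega
            · rw [bn_t] at h8
              simp only [if_true, reduceCtorEq, if_false]
              omega
          · omega
      · rw [hw1, hw2]
        unfold mvV
        rw [hPP, hTT, hmod, hnV, o1_bn, bn_not]
        have h1 := hlt a
        show (c' = c ∧ ∃ b', (goG (grid n) tc).mv c a.1 b' ∧ ¬ (goG (grid n) tc).mv (!c) b' a.1 ∧
          dcl D w true c a.1 b') ↔ _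
        constructor
        · rintro ⟨rfl, b', h3, h4, h5⟩
          exact Or.inr ⟨h1, rfl, codeB b', hc b', (hmv _ _ _).2 h3, fun h => h4 ((hmv _ _ _).1 h),
            (hdc _ _ _ _).2 h5⟩
        · rintro (⟨-, h3, -⟩ | ⟨-, h3, y, hy, h4, h5, h6⟩)
          · omega
          · obtain ⟨Q, rfl⟩ := cod3 y (by rw [← hK]; exact hy)
            exact ⟨bn_inj (by omega), Q, (hmv _ _ _).1 h4, fun h => h5 ((hmv _ _ _).2 h),
              (hdc _ _ _ _).1 h6⟩
    · constructor
      · intro h
        exact absurd h (by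
          show ¬ False
          exact not_false)
      · intro h
        rw [hw2] at h
        unfold mvV at h
        rw [hTT] at h
        rcases h with ⟨h1, -⟩ | ⟨h1, -⟩ <;> omega
  · intro c x' y' h
    rw [hAX] at h
    have hsup : ∀ z < K * M, ∃ x, wcode (n := n) M x = z := by
      intro z hz
      obtain ⟨P, hP⟩ := cod3 (z % K) (by rw [← hK]; exact Nat.mod_lt _ hK0)
      refine ⟨Sum.inl (P, ⟨z / K, Nat.div_lt_of_lt_mul hz⟩), ?_⟩
      rw [hw1]
      show codeB P + K * (z / K) = z
      rw [hP]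
      exact Nat.mod_add_div z K
    unfold mvV at h
    rw [hTT, o1_bn] at h
    rcases h with ⟨h1, h2, -⟩ | ⟨h1, h2, -⟩
    · exact ⟨hsup _ h1, hsup _ h2⟩
    · exact ⟨hsup _ h1, Sum.inr c, by rw [hw2, h2]⟩

end Pool.Agent.Helper81.GT
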